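import Pool.Agent.Q81.EX.Stm

/-! Project EX (helper81), job FDV: the function `F` is concave and nonnegative. -/

set_option autoImplicit false

namespace Pool.Agent.Q277.EX

open Set MeasureTheory Filter Topology
open Pool.Agent.Q81.EX

theorem int_on {p : ℝ → ℝ} (h : ContinuousOn p (Icc 0 1)) {a b : ℝ} (ha : 0 ≤ a) (hab : a ≤ b)
    (hb : b ≤ 1) : IntervalIntegrable p volume a b := by
  apply ContinuousOn.intervalIntegrable
  rw [uIcc_of_le hab]
  exact h.mono (Icc_subset_Icc ha hb)

theorem prim_deriv {f : ℝ → ℝ} (h : ContinuousOn f (Icc 0 1)) {s : ℝ} (hs : s ∈ Icc (0 : ℝ) 1) :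
    HasDerivWithinAt (fun u => ∫ r in (0 : ℝ)..u, f r) (f s) (Icc 0 1) s := by
  have : Fact (s ∈ Icc (0 : ℝ) 1) := ⟨hs⟩
  exact intervalIntegral.integral_hasDerivWithinAt_right (int_on h le_rfl hs.1 hs.2)
    (h.stronglyMeasurableAtFilter_nhdsWithin measurableSet_Icc s) (h s hs)

/-- concavity and `p 0 = 0` -/
theorem slope {p : ℝ → ℝ} (h : Adm p) {s t : ℝ} (hs : 0 ≤ s) (hst : s ≤ t) (ht : t ≤ 1) :
    s * p t ≤ t * p s := by
  rcases eq_or_lt_of_le (hs.trans hst) with h0 | h0
  · have h1 : s = 0 := le_antisymm (h0 ▸ hst) hs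
    rw [h1, ← h0]
  · have h1 : 0 ≤ s / t := div_nonneg hs h0.le
    have h2 : s / t ≤ 1 := (div_le_one h0).2 hst
    have h3 := h.conc.2 (left_mem_Icc.2 zero_le_one) ⟨h0.le, ht⟩ (sub_nonneg.2 h2) h1 (by ring)
    simp only [smul_eq_mul, h.zero, mul_zero, zero_add] at h3
    have h4 : s / t * t = s := div_mul_cancel₀ _ h0.ne'
    rw [h4] at h3
    calc s * p t = t * (s / t * p t) := by field_simp
      _ ≤ t * p s := mul_le_mul_of_nonneg_left h3 h0.le

theorem anti {p : ℝ → ℝ} (h : Adm p) : AntitoneOn (fun s => GG p s - 1 + 1 / 2 * s * p s)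
    (Icc 0 1) := by
  intro s hs t ht hst
  have h1 : GG p s = (∫ r in s..t, p r) + GG p t :=
    (intervalIntegral.integral_add_adjacent_intervals (int_on h.cont hs.1 hst ht.2)
      (int_on h.cont ht.1 ht.2 le_rfl)).symm
  show GG p t - 1 + 1 / 2 * t * p t ≤ GG p s - 1 + 1 / 2 * s * p s
  rcases eq_or_lt_of_le ht.1 with h0 | h0
  · have h2 : s = t := le_antisymm hst (h0 ▸ hs.1)
    rw [h2]
  · have h2 : ∫ r in s..t, p t / t * r ≤ ∫ r in s..t, p r := by
      refine intervalIntegral.integral_mono_on hst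
        ((continuous_const.mul continuous_id).intervalIntegrable _ _)
        (int_on h.cont hs.1 hst ht.2) fun r hr => ?_
      have h3 := slope h (hs.1.trans hr.1) hr.2 ht.2
      rw [div_mul_eq_mul_div, div_le_iff₀ h0]
      linarith
    rw [intervalIntegral.integral_const_mul, integral_id] at h2
    have h3 := slope h hs.1 hst ht.2
    have h4 : p t / t * ((t ^ 2 - s ^ 2) / 2) = 1 / 2 * t * p t - 1 / 2 * s * (s * p t) / t := by
      field_simp
    have h5 : 1 / 2 * s * (s * p t) / t ≤ 1 / 2 * s * p s := by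
      rw [div_le_iff₀ h0]
      have h6 : 0 ≤ 1 / 2 * s := by have := hs.1; positivity
      calc 1 / 2 * s * (s * p t) ≤ 1 / 2 * s * (t * p s) := mul_le_mul_of_nonneg_left h3 h6
        _ = 1 / 2 * s * p s * t := by ring
    linarith

theorem fdv (hBND : S_BND) (hGBD : S_GBD) : S_FDV := by
  intro p h
  obtain ⟨hG1, hG2, hG3, hG4, -⟩ := hGBD p h
  have hGc : ContinuousOn (GG p) (Icc 0 1) := fun s hs => (hG2 s hs).continuousWithinAt
  have hd : ∀ s ∈ Icc (0 : ℝ) 1,
      HasDerivWithinAt (FF p) (GG p s - 1 + 1 / 2 * s * p s) (Icc 0 1) s := by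
    intro s hs
    have h1 := (prim_deriv hGc hs).const_mul (3 / 2)
    have h2 := hasDerivWithinAt_id s (Icc (0 : ℝ) 1)
    have h3 := (h2.const_mul (1 / 2)).mul (hG2 s hs)
    have h4 := (h1.sub h2).sub h3
    have e : 3 / 2 * GG p s - 1 - (1 / 2 * 1 * GG p s + 1 / 2 * id s * -p s) =
        GG p s - 1 + 1 / 2 * s * p s := by
      simp only [id]
      ring
    rw [e] at h4
    exact h4
  have hF0 : FF p 0 = 0 := by
    unfold FF
    rw [intervalIntegral.integral_same]
    ring
  have hF1 : FF p 1 = 0 := by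
    unfold FF
    rw [hG4, hG3]
    ring
  have hFc : ContinuousOn (FF p) (Icc 0 1) := fun s hs => (hd s hs).continuousWithinAt
  have hda : ∀ s ∈ Ioo (0 : ℝ) 1, HasDerivAt (FF p) (GG p s - 1 + 1 / 2 * s * p s) s := fun s hs =>
    (hd s (Ioo_subset_Icc_self hs)).hasDerivAt (Icc_mem_nhds hs.1 hs.2)
  have hconc : ConcaveOn ℝ (Icc 0 1) (FF p) := by
    refine AntitoneOn.concaveOn_of_deriv (convex_Icc 0 1) hFc ?_ ?_
    · rw [interior_Icc]
      exact fun s hs => (hda s hs).differentiableAt.differentiableWithinAt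
    · rw [interior_Icc]
      intro s hs t ht hst
      rw [(hda s hs).deriv, (hda t ht).deriv]
      exact anti h (Ioo_subset_Icc_self hs) (Ioo_subset_Icc_self ht) hst
  refine ⟨hd, hF0, hF1, hconc, fun s hs => ⟨?_, ?_⟩⟩
  · have h1 := hconc.2 (left_mem_Icc.2 zero_le_one) (right_mem_Icc.2 zero_le_one)
      (sub_nonneg.2 hs.2) hs.1 (by ring)
    simp only [smul_eq_mul, hF0, hF1, mul_zero, zero_add, mul_one] at h1
    exact h1
  · have hm : MonotoneOn (fun s => FF p s + s) (Icc 0 1) := by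
      refine monotoneOn_of_deriv_nonneg (convex_Icc 0 1) (hFc.add continuousOn_id) ?_ ?_
      · rw [interior_Icc]
        exact fun s hs => ((hda s hs).differentiableAt.add differentiableAt_id).differentiableWithinAt
      · rw [interior_Icc]
        intro s hs
        have h1 : HasDerivAt (fun s => FF p s + s) (GG p s - 1 + 1 / 2 * s * p s + 1) s :=
          (hda s hs).add (hasDerivAt_id s)
        rw [h1.deriv]
        have h2 := (hG1 s (Ioo_subset_Icc_self hs)).1
        have h3 := (hBND p h s (Ioo_subset_Icc_self hs)).1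
        have h4 : 0 ≤ 1 / 2 * s * p s := by
          have := hs.1.le
          positivity
        have h5 : 0 ≤ (1 - s) ^ 2 / 12 := by positivity
        linarith
    have h1 := hm hs (right_mem_Icc.2 zero_le_one) hs.2
    simp only [hF1, zero_add] at h1
    linarith

end Pool.Agent.Q277.EX
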